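import Pool.Agent.N156.EP.A5
import Pool.Agent.N911.C1

/-! From the continued fraction of even period two or four to the parameters. -/

namespace Pool.Agent.N367.EP

open Pool.Agent.N911 (nextQ nextQ_spec floor_pos_of floor_lt_of lin_zero)
open Pool.Agent.N156.EP

/-- `P = 1` gives period one. -/
theorem per_one {α : ℝ} {t : ℤ} (hα : α ^ 2 = t * α + 1) (h1 : (t : ℝ) < α) (h2 : α < t + 1) :
    nextQ^[1 + 1] α = nextQ α := by
  have hfl : ⌊α⌋ = t := by
    rw [Int.floor_eq_iff]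
    exact ⟨h1.le, h2⟩
  have hfr : Int.fract α = α - t := by unfold Int.fract; rw [hfl]
  have h3 : nextQ α = α := by
    unfold nextQ
    rw [hfr]
    have h4 : (α - t) * α = 1 := by linear_combination hα
    have h5 : α - t ≠ 0 := by
      intro h; rw [h] at h4; simp at h4
    rw [inv_eq_iff_eq_inv, eq_comm, inv_eq_iff_eq_inv]
    exact eq_inv_of_mul_eq_one_left (by linear_combination h4)
  change nextQ (nextQ α) = nextQ α
  rw [h3]
  exact h3

/-- `t = a P` gives period two. -/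
theorem per_two {α : ℝ} {t P a : ℤ} (hα : α ^ 2 = t * α + P) (h1 : (t : ℝ) < α)
    (h2 : α < t + 1) (hP : 0 < P) (hc : t = a * P) : nextQ^[2 + 1] α = nextQ α := by
  have hfl : ⌊α⌋ = t := by
    rw [Int.floor_eq_iff]
    exact ⟨h1.le, h2⟩
  have hfr : Int.fract α = α - t := by unfold Int.fract; rw [hfl]
  have hPr : (0 : ℝ) < P := by exact_mod_cast hP
  have hPr1 : (1 : ℝ) ≤ P := by exact_mod_cast hP
  have h4 : (α - t) * α = P := by linear_combination hα
  have h0 : 0 < α - t := by linarith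
  have hx1 : nextQ α = a + (α - t) / P := by
    unfold nextQ
    rw [hfr]
    have hcr : (t : ℝ) = a * P := by exact_mod_cast hc
    field_simp
    linear_combination (-1 : ℝ) * h4 + (α - t) * hcr
  have hfr1 : Int.fract (nextQ α) = (α - t) / P := by
    have hlt : (α - t) / P < 1 := by
      rw [div_lt_one hPr]
      linarith
    have hfl1 : ⌊nextQ α⌋ = a := by
      rw [Int.floor_eq_iff, hx1]
      constructor
      · have : 0 ≤ (α - t) / P := by positivity
        linarith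
      · linarith
    unfold Int.fract
    rw [hfl1, hx1]
    ring
  have hx2 : nextQ (nextQ α) = α := by
    unfold nextQ at hfr1 ⊢
    rw [hfr1]
    rw [inv_div, div_eq_iff h0.ne']
    linear_combination (-1 : ℝ) * h4
  have e : nextQ^[2 + 1] α = nextQ (nextQ (nextQ α)) := rfl
  rw [e, hx2]

/-- Period four (or a divisor of it) gives the parameters. -/
theorem par_of_per4 {α : ℝ} {t P : ℤ} (hα : α ^ 2 = t * α + P) (hirr : Irrational α) (ht : 0 < t)
    (h1 : (t : ℝ) < α) (h2 : α < t + 1) (hper : nextQ^[4 + 1] α = nextQ α) :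
    P = 1 ∨ (1 < P ∧ 0 < ⌊nextQ α⌋ ∧ t = ⌊nextQ α⌋ * P) ∨ ∃ b, Par4 t P ⌊nextQ α⌋ b := by
  have ht' : (0 : ℝ) < t := by exact_mod_cast ht
  have hP : 1 ≤ P := by
    have : (0 : ℝ) < P := by nlinarith
    exact_mod_cast this
  have hfl : ⌊α⌋ = t := by
    rw [Int.floor_eq_iff]
    exact ⟨h1.le, h2⟩
  obtain ⟨i1, g1, e0⟩ := nextQ_spec hirr
  rw [hfl] at e0
  have p1 : nextQ α ≠ 0 := by positivity
  have e0' : (α - t) * nextQ α = 1 := by
    have : α - t = (nextQ α)⁻¹ := by linarith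
    rw [this]; exact inv_mul_cancel₀ p1
  have hp : nextQ (nextQ (nextQ (nextQ (nextQ α)))) = nextQ α := hper
  obtain ⟨i2, g2, e1⟩ := nextQ_spec i1
  obtain ⟨i3, g3, e2⟩ := nextQ_spec i2
  obtain ⟨i4, g4, e3⟩ := nextQ_spec i3
  obtain ⟨_, _, e4⟩ := nextQ_spec i4
  rw [hp] at e4
  have b1 := floor_pos_of g1
  have b2 := floor_pos_of g2
  have b3 := floor_pos_of g3
  have lt1 := floor_lt_of i1
  set x1 := nextQ α with hx1
  set x2 := nextQ x1 with hx2
  set x3 := nextQ x2 with hx3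
  set x4 := nextQ x3 with hx4
  have q2 : x2 ≠ 0 := by positivity
  have q3 : x3 ≠ 0 := by positivity
  have q4 : x4 ≠ 0 := by positivity
  generalize ha1 : ⌊x1⌋ = a1 at *
  generalize ha2 : ⌊x2⌋ = a2 at *
  generalize ha3 : ⌊x3⌋ = a3 at *
  generalize ha4 : ⌊x4⌋ = a4 at *
  obtain ⟨e, he⟩ : ∃ e : ℤ, e = a4 - t := ⟨_, rfl⟩
  have hu : x4 = α + e := by
    rw [he]; push_cast
    linear_combination e4 + (-1 : ℝ) * e0
  have m1 : x1 * x2 = a1 * x2 + 1 := by
    nth_rewrite 1 [e1]; field_simp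
  have m2 : x2 * x3 = a2 * x3 + 1 := by
    nth_rewrite 1 [e2]; field_simp
  have m3 : x3 * x4 = a3 * x4 + 1 := by
    nth_rewrite 1 [e3]; field_simp
  obtain ⟨r3, hr3⟩ : ∃ r3 : ℤ, r3 = a2 * a3 + 1 := ⟨_, rfl⟩
  obtain ⟨k3, hk3⟩ : ∃ k3 : ℤ, k3 = a1 * r3 + a3 := ⟨_, rfl⟩
  obtain ⟨k2, hk2⟩ : ∃ k2 : ℤ, k2 = a1 * a2 + 1 := ⟨_, rfl⟩
  have n2 : x2 * x3 * x4 = r3 * x4 + a2 := by
    rw [hr3]; push_cast
    linear_combination x4 * m2 + (a2 : ℝ) * m3
  have n1 : x1 * x2 * x3 * x4 = k3 * x4 + k2 := by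
    rw [hk3, hk2, hr3]; push_cast
    rw [hr3] at n2
    push_cast at n2
    linear_combination x3 * x4 * m1 + (a1 : ℝ) * n2 + m3
  have m : (α - t) * (k3 * (α + e) + k2) = r3 * (α + e) + a2 := by
    rw [← hu, ← n1, ← n2]
    linear_combination (x2 * x3 * x4) * e0'
  have hlin : ((k3 * e + k2 - r3 : ℤ) : ℝ) * α +
      ((k3 * P - t * (k3 * e + k2) - r3 * e - a2 : ℤ) : ℝ) = 0 := by
    push_cast
    linear_combination m - (k3 : ℝ) * hα
  obtain ⟨z1, z2⟩ := lin_zero hirr hlin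
  have r3p : 0 < r3 := by rw [hr3]; positivity
  have k2p : 0 < k2 := by rw [hk2]; positivity
  have c1 : r3 < k3 := by
    have : 0 ≤ (a1 - 1) * r3 := mul_nonneg (by omega) r3p.le
    nlinarith
  have c2 : k2 < k3 := by
    have h3 : k3 = a3 * k2 + a1 := by rw [hk3, hk2, hr3]; ring
    have : 0 ≤ (a3 - 1) * k2 := mul_nonneg (by omega) k2p.le
    nlinarith
  have he0 : e = 0 := by
    rcases lt_trichotomy e 0 with h | h | h
    · exfalso
      have : k3 * (e + 1) ≤ 0 := mul_nonpos_of_nonneg_of_nonpos (by omega) (by omega)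
      nlinarith
    · exact h
    · exfalso
      have : 0 ≤ k3 * (e - 1) := mul_nonneg (by omega) (by omega)
      nlinarith
  rw [he0] at z1 z2
  have h13 : a1 = a3 := by
    have : a2 * (a1 - a3) = 0 := by
      rw [hk2, hr3] at z1
      linear_combination z1
    rcases mul_eq_zero.mp this with h | h
    · omega
    · omega
  subst h13
  have hcon : a2 * (1 + a1 * t - a1 ^ 2 * P) = 2 * a1 * P - t := by
    rw [hk3, hk2, hr3] at z2
    linear_combination -z2
  have hR : 1 ≤ 1 + a1 * t - a1 ^ 2 * P := by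
    have a1p : (0 : ℝ) < a1 := by exact_mod_cast (by omega : 0 < a1)
    have hd : 0 < α - t := by linarith
    have h3 : (a1 : ℝ) * (α - t) < 1 := by
      rw [← e0', mul_comm]
      exact mul_lt_mul_of_pos_left lt1 hd
    have h4 : (P : ℝ) = α * (α - t) := by linear_combination -hα
    have h5 : (0 : ℝ) < 1 + a1 * t - a1 ^ 2 * P := by
      rw [h4]
      have h6 : (a1 : ℝ) * α * (a1 * (α - t)) < a1 * α * 1 :=
        mul_lt_mul_of_pos_left h3 (mul_pos a1p (by linarith))
      nlinarith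
    have h6 : (0 : ℤ) < 1 + a1 * t - a1 ^ 2 * P := by exact_mod_cast h5
    omega
  rcases hP.eq_or_lt with h | h
  · exact Or.inl h.symm
  · right
    rcases hR.eq_or_lt with h' | h'
    · left
      refine ⟨h, by omega, ?_⟩
      have h3 : a1 * (t - a1 * P) = 0 := by linear_combination -h'
      rcases mul_eq_zero.mp h3 with h4 | h4
      · omega
      · linarith
    · right
      exact ⟨a2, ht, h, by omega, by omega, h', hcon⟩

end Pool.Agent.N367.EP
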