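import Pool.Agent.N367.EP.C1

/-! The parameters of the real quadratic fields with even period two or four, `d = 1 mod 4`. -/

namespace Pool.Agent.N367.EP

open Pool.Agent.N911 (nextQ nextQ_spec floor_pos_of floor_lt_of lin_zero)
open Pool.Agent.N156.EP H419R2

/-- The standard generator of the ring of integers of `ℚ(√d)`. -/
noncomputable def omega (d : ℕ) : ℝ := if d % 4 = 1 then (1 + √(d : ℝ)) / 2 else √(d : ℝ)

/-- The period length of the simple continued fraction of `omega d`. -/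
noncomputable def perLen (d : ℕ) : ℕ :=
  sInf {l : ℕ | 0 < l ∧ nextQ^[l + 1] (omega d) = nextQ (omega d)}

theorem perLen_mem {d : ℕ} (h : 0 < perLen d) :
    nextQ^[perLen d + 1] (omega d) = nextQ (omega d) := by
  have hne : {l : ℕ | 0 < l ∧ nextQ^[l + 1] (omega d) = nextQ (omega d)}.Nonempty := by
    by_contra hc
    rw [Set.not_nonempty_iff_eq_empty] at hc
    have h0 : perLen d = 0 := by
      unfold perLen
      rw [hc]
      exact Nat.sInf_empty
    omega
  exact (Nat.sInf_mem hne).2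

theorem perLen_le {d l : ℕ} (hl : 0 < l) (h : nextQ^[l + 1] (omega d) = nextQ (omega d)) :
    perLen d ≤ l := Nat.sInf_le ⟨hl, h⟩

theorem nextQ_add (x : ℝ) (n : ℤ) : nextQ (x + n) = nextQ x := by
  unfold nextQ
  rw [Int.fract_add_intCast]

theorem iter_add (x : ℝ) (n : ℤ) (l : ℕ) : nextQ^[l + 1] (x + n) = nextQ^[l + 1] x := by
  rw [Function.iterate_succ_apply, nextQ_add, ← Function.iterate_succ_apply]

theorem iter_two {x : ℝ} (h : nextQ^[2 + 1] x = nextQ x) : nextQ^[4 + 1] x = nextQ x := by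
  have e : nextQ^[4 + 1] x = nextQ^[2] (nextQ^[2 + 1] x) := by
    rw [← Function.iterate_add_apply]
  rw [e, h, ← Function.iterate_succ_apply]
  exact h

/-- Even period two or four: the parameters. -/
theorem params {d : ℕ} (hsf : Squarefree d) (hd1 : 1 < d) (h4 : d % 4 = 1)
    (hper : perLen d = 2 ∨ perLen d = 4) :
    ∃ t P b : ℤ, 0 < t ∧ t % 2 = 1 ∧ (d : ℤ) = t ^ 2 + 4 * P ∧ 1 < P ∧
      0 < ⌊nextQ (omega d)⌋ ∧
      ((perLen d = 2 ∧ t = ⌊nextQ (omega d)⌋ * P ∧ b = t) ∨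
        (perLen d = 4 ∧ Par4 t P ⌊nextQ (omega d)⌋ b)) := by
  have hper0 : 0 < perLen d := by omega
  have hmem := perLen_mem hper0
  have hp4 : nextQ^[4 + 1] (omega d) = nextQ (omega d) := by
    rcases hper with h | h
    · rw [h] at hmem; exact iter_two hmem
    · rw [h] at hmem; exact hmem
  have hsf' : Squarefree (d : ℤ) := Int.squarefree_natCast.mpr hsf
  have hd1' : (1 : ℤ) < d := by exact_mod_cast hd1
  have hns := not_sq_of_squarefree hsf' hd1'
  have hirr : Irrational (√(d : ℝ)) := by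
    rintro ⟨q, hq⟩
    apply hns
    refine ⟨q, ?_⟩
    have h1 : ((q : ℝ)) ^ 2 = d := by
      rw [hq]
      exact Real.sq_sqrt (by positivity)
    have h2 : ((q ^ 2 : ℚ) : ℝ) = ((d : ℚ) : ℝ) := by push_cast; exact h1
    have h3 : q ^ 2 = (d : ℚ) := by exact_mod_cast h2
    rw [h3]; push_cast; rfl
  have hsq : √(d : ℝ) ^ 2 = d := Real.sq_sqrt (by positivity)
  have hs1 : 1 < √(d : ℝ) := by
    rw [show (1 : ℝ) = √1 by simp]
    apply Real.sqrt_lt_sqrt (by norm_num)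
    exact_mod_cast hd1
  have ho : omega d = (1 + √(d : ℝ)) / 2 := by unfold omega; rw [if_pos h4]
  obtain ⟨n, hn⟩ : ∃ n : ℤ, n = ⌊(1 + √(d : ℝ)) / 2⌋ := ⟨_, rfl⟩
  have hn1 : 1 ≤ n := by
    rw [hn]
    apply Int.le_floor.mpr
    push_cast
    linarith
  have hfl : (n : ℝ) ≤ (1 + √(d : ℝ)) / 2 := by rw [hn]; exact Int.floor_le _
  have hfl2 : (1 + √(d : ℝ)) / 2 < n + 1 := by rw [hn]; exact Int.lt_floor_add_one _
  obtain ⟨α, hα⟩ : ∃ α : ℝ, α = omega d + ((n - 1 : ℤ) : ℝ) := ⟨_, rfl⟩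
  have hα' : α = ((2 * n - 1 : ℤ) + √(d : ℝ)) / 2 := by rw [hα, ho]; push_cast; ring
  have hαirr : Irrational α := by
    rw [hα']
    exact ((hirr.intCast_add _).div_natCast (m := 2) (by norm_num))
  obtain ⟨P, hP⟩ : ∃ P : ℤ, (d : ℤ) = (2 * n - 1) ^ 2 + 4 * P := by
    refine ⟨((d : ℤ) - (2 * n - 1) ^ 2) / 4, ?_⟩
    have : ((d : ℤ) - (2 * n - 1) ^ 2) % 4 = 0 := by
      have e : (d : ℤ) - (2 * n - 1) ^ 2 = d - 1 - 4 * (n ^ 2 - n) := by ring
      rw [e]; omega
    omega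
  have hPr : (d : ℝ) = (2 * n - 1) ^ 2 + 4 * P := by exact_mod_cast hP
  have hq : α ^ 2 = ((2 * n - 1 : ℤ) : ℝ) * α + P := by
    rw [hα']
    push_cast
    linear_combination (1 / 4) * hsq + (1 / 4) * hPr
  have ht : (0 : ℤ) < 2 * n - 1 := by omega
  have hstr : (n : ℝ) < (1 + √(d : ℝ)) / 2 := by
    refine lt_of_le_of_ne hfl ?_
    intro h
    apply hirr
    refine ⟨2 * n - 1, ?_⟩
    push_cast
    linarith
  have hb1 : ((2 * n - 1 : ℤ) : ℝ) < α := by rw [hα, ho]; push_cast; linarith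
  have hb2 : α < ((2 * n - 1 : ℤ) : ℝ) + 1 := by rw [hα, ho]; push_cast; linarith
  have e1 : nextQ α = nextQ (omega d) := by rw [hα, nextQ_add]
  have hit : ∀ l : ℕ, nextQ^[l + 1] α = nextQ α → perLen d ≤ l ∨ l = 0 := by
    intro l h
    rcases Nat.eq_zero_or_pos l with h0 | h0
    · exact Or.inr h0
    · left
      apply perLen_le h0
      rw [hα, iter_add, nextQ_add] at h
      exact h
  have hpα : nextQ^[4 + 1] α = nextQ α := by rw [hα, iter_add, nextQ_add]; exact hp4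
  have hodd' : (2 * n - 1) % 2 = 1 := by omega
  rcases par_of_per4 hq hαirr ht hb1 hb2 hpα with h | ⟨h, ha, hc⟩ | ⟨b, hb⟩
  · exfalso
    subst h
    have h5 := hit 1 (per_one (by push_cast at hq ⊢; exact hq) hb1 hb2)
    omega
  · rw [e1] at ha hc
    refine ⟨2 * n - 1, P, 2 * n - 1, ht, hodd', hP, h, ha, Or.inl ⟨?_, hc, rfl⟩⟩
    have h5 := hit 2 (per_two hq hb1 hb2 (by omega) hc)
    omega
  · rw [e1] at hb
    have hb' := hb
    obtain ⟨-, hP1, ha, -, hR, hc⟩ := hb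
    refine ⟨2 * n - 1, P, b, ht, hodd', hP, hP1, ha, Or.inr ⟨?_, hb'⟩⟩
    rcases hper with h6 | h6
    · exfalso
      -- period two forces `t = a P`
      rw [h6] at hmem
      have h7 : nextQ^[2 + 1] α = nextQ α := by rw [hα, iter_add, nextQ_add]; exact hmem
      obtain ⟨i1, g1, f0⟩ := nextQ_spec hαirr
      obtain ⟨i2, g2, f1⟩ := nextQ_spec i1
      obtain ⟨_, _, f2⟩ := nextQ_spec i2
      have h8 : nextQ (nextQ (nextQ α)) = nextQ α := h7
      rw [h8] at f2
      have hflα : ⌊α⌋ = 2 * n - 1 := by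
        rw [Int.floor_eq_iff]; exact ⟨hb1.le, by exact_mod_cast hb2⟩
      rw [hflα] at f0
      rw [e1] at f0 f1 f2 g1
      obtain ⟨a, hae⟩ : ∃ a : ℤ, a = ⌊nextQ (omega d)⌋ := ⟨_, rfl⟩
      rw [← hae] at f1 ha hR hc
      obtain ⟨c, hce⟩ : ∃ c : ℤ, c = ⌊nextQ (nextQ (omega d))⌋ := ⟨_, rfl⟩
      rw [← hce] at f2
      obtain ⟨y, hy⟩ : ∃ y : ℝ, y = nextQ (omega d) := ⟨_, rfl⟩
      obtain ⟨z, hz⟩ : ∃ z : ℝ, z = nextQ (nextQ (omega d)) := ⟨_, rfl⟩
      rw [← hy] at f0 f1 f2 g1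
      rw [← hy] at hz
      rw [← hz] at f1 f2
      have y0 : y ≠ 0 := by positivity
      have zpos : (0 : ℝ) < z := by
        rw [hz]
        have := (nextQ_spec (x := y) (by rw [hy, ← e1]; exact i1)).2.1
        linarith
      obtain ⟨e, he⟩ : ∃ e : ℤ, e = c - (2 * n - 1) := ⟨_, rfl⟩
      have hze : z = α + e := by
        rw [he]; push_cast
        push_cast at f0
        linear_combination f2 - f0
      have w1 : (α - (2 * n - 1 : ℤ)) * y = 1 := by
        have : α - ((2 * n - 1 : ℤ) : ℝ) = y⁻¹ := by linear_combination f0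
        rw [this]; exact inv_mul_cancel₀ y0
      have w2 : y * z = a * z + 1 := by
        nth_rewrite 1 [f1]; field_simp
      have w3 : (α - (2 * n - 1 : ℤ)) * (a * (α + e) + 1) = α + e := by
        rw [← hze, ← w2]
        linear_combination z * w1
      have hlin : ((a * e : ℤ) : ℝ) * α +
          ((a * P - (2 * n - 1) * (a * e + 1) - e : ℤ) : ℝ) = 0 := by
        push_cast
        push_cast at w3 hq
        linear_combination w3 - (a : ℝ) * hq
      obtain ⟨z1, z2⟩ := lin_zero hαirr hlin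
      have he0 : e = 0 := by
        rcases mul_eq_zero.mp z1 with h | h
        · omega
        · exact h
      rw [he0] at z2
      have h9 : 1 + a * (2 * n - 1) - a ^ 2 * P = 1 := by linear_combination (-a) * z2
      omega
    · exact h6

/-- Even period two or four and class number one: the data `Good4`. -/
theorem good {d : ℕ} (hsf : Squarefree d) (hd1 : 1 < d) (h4 : d % 4 = 1)
    {K : Type*} [Field K] [NumberField K] (hK : Module.finrank ℚ K = 2) {x : K}
    (hx : x ^ 2 = (d : K)) (hcl : NumberField.classNumber K = 1)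
    (hper : perLen d = 2 ∨ perLen d = 4) :
    ∃ t P b : ℤ, 0 < t ∧ t % 2 = 1 ∧ (d : ℤ) = t ^ 2 + 4 * P ∧ 1 < P ∧
      0 < ⌊nextQ (omega d)⌋ ∧
      ((perLen d = 2 ∧ t = ⌊nextQ (omega d)⌋ * P ∧ b = t) ∨
        (perLen d = 4 ∧ Par4 t P ⌊nextQ (omega d)⌋ b)) ∧
      Good4 t P ⌊nextQ (omega d)⌋ b d := by
  obtain ⟨t, P, b, ht, hodd, hD, hP, ha, hc⟩ := params hsf hd1 h4 hper
  refine ⟨t, P, b, ht, hodd, hD, hP, ha, hc, ?_⟩
  have hsf' : Squarefree (d : ℤ) := Int.squarefree_natCast.mpr hsf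
  have hx' : x ^ 2 = ((d : ℤ) : K) := by rw [hx]; push_cast; rfl
  rcases hc with ⟨_, hc, hb⟩ | ⟨_, hc⟩
  · obtain ⟨t', rfl⟩ := Int.eq_ofNat_of_zero_le ht.le
    obtain ⟨a', ha'⟩ := Int.eq_ofNat_of_zero_le ha.le
    rw [ha'] at hc ha ⊢
    rw [hb]
    exact good2 (by exact_mod_cast ht) (by exact_mod_cast ha) hP hc hD hsf'
      (by exact_mod_cast hodd) hK hx' hcl
  · exact good_of_par4 hc hD hsf' hodd hK hx' hcl

end Pool.Agent.N367.EP
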