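import Pool.Agent.N367.EP.C2

/-! If `a` is even then all units of the order of discriminant `t ^ 2 + 4 P` with period four have
an even second coordinate. -/

namespace Pool.Agent.N367.EP

open Pool.Agent.N156.EP

/-- No unit lies strictly between two consecutive minima. -/
theorem no_unit {m n m' n' θ θ' : ℝ} {r s : ℤ} (hθ : θ = r * m + s * n)
    (hθ' : θ' = r * m' + s * n') (hm : 0 < m) (hn : 0 < n) (hopp : m' * n' < 0) (h1 : m ≤ θ)
    (h2 : θ < n) (hN : 1 ≤ |m * m'|) (hu : |θ * θ'| = 1) : |m * m'| = 1 ∧ θ = m := by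
  have hθ0 : 0 < θ := hm.trans_le h1
  have key : |m'| < |θ'| → False := by
    intro h
    have e1 : |m * m'| = m * |m'| := by rw [abs_mul, abs_of_pos hm]
    have e2 : |θ * θ'| = θ * |θ'| := by rw [abs_mul, abs_of_pos hθ0]
    rw [e1] at hN
    rw [e2] at hu
    have h3 : m * |m'| < θ * |θ'| := by
      calc m * |m'| < m * |θ'| := mul_lt_mul_of_pos_left h hm
        _ ≤ θ * |θ'| := mul_le_mul_of_nonneg_right h1 (abs_nonneg _)
    linarith
  rcases lt_trichotomy s 0 with hs | hs | hs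
  · rcases lt_trichotomy r 0 with hr | hr | hr
    · exfalso
      have a1 : (r : ℝ) < 0 := by exact_mod_cast hr
      have a2 : (s : ℝ) < 0 := by exact_mod_cast hs
      nlinarith [mul_neg_of_neg_of_pos a1 hm, mul_neg_of_neg_of_pos a2 hn]
    · exfalso
      subst hr
      have a2 : (s : ℝ) < 0 := by exact_mod_cast hs
      push_cast at hθ
      nlinarith [mul_neg_of_neg_of_pos a2 hn]
    · exfalso
      apply key
      have a1 : (1 : ℝ) ≤ r := by exact_mod_cast hr
      have a2 : (s : ℝ) ≤ -1 := by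
        have : s ≤ -1 := by omega
        exact_mod_cast this
      rcases mul_neg_iff.mp hopp with ⟨b1, b2⟩ | ⟨b1, b2⟩
      · rw [abs_of_pos b1]
        refine lt_of_lt_of_le ?_ (le_abs_self _)
        rw [hθ']
        nlinarith [mul_le_mul_of_nonneg_right a1 b1.le, mul_le_mul_of_nonpos_right a2 b2.le]
      · rw [abs_of_neg b1]
        refine lt_of_lt_of_le ?_ (neg_le_abs _)
        rw [hθ']
        nlinarith [mul_le_mul_of_nonpos_right a1 b1.le, mul_le_mul_of_nonneg_right a2 b2.le]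
  · subst hs
    have e1 : θ = r * m := by rw [hθ]; push_cast; ring
    have e2 : θ' = r * m' := by rw [hθ']; push_cast; ring
    have hr : 0 < r := by
      have : (0 : ℝ) < r := by
        by_contra hc
        push Not at hc
        nlinarith
      exact_mod_cast this
    have hr1 : (1 : ℝ) ≤ r := by exact_mod_cast hr
    have e3 : |θ * θ'| = (r : ℝ) ^ 2 * |m * m'| := by
      rw [e1, e2, show (r : ℝ) * m * (r * m') = (r : ℝ) ^ 2 * (m * m') by ring, abs_mul,
        abs_of_nonneg (sq_nonneg _)]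
    rw [e3] at hu
    have h4 : (r : ℝ) ^ 2 ≤ 1 := by nlinarith [sq_nonneg (r : ℝ)]
    have h5 : (r : ℝ) = 1 := by nlinarith
    rw [h5] at hu e1
    constructor
    · linarith
    · linarith
  · rcases lt_trichotomy r 0 with hr | hr | hr
    · exfalso
      apply key
      have a1 : (1 : ℝ) ≤ s := by exact_mod_cast hs
      have a2 : (r : ℝ) ≤ -1 := by
        have : r ≤ -1 := by omega
        exact_mod_cast this
      rcases mul_neg_iff.mp hopp with ⟨b1, b2⟩ | ⟨b1, b2⟩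
      · rw [abs_of_pos b1]
        refine lt_of_lt_of_le ?_ (neg_le_abs _)
        rw [hθ']
        nlinarith [mul_le_mul_of_nonneg_right a2 b1.le, mul_le_mul_of_nonpos_right a1 b2.le]
      · rw [abs_of_neg b1]
        refine lt_of_lt_of_le ?_ (le_abs_self _)
        rw [hθ']
        nlinarith [mul_le_mul_of_nonneg_right a1 b2.le, mul_le_mul_of_nonpos_right a2 b1.le]
    · exfalso
      subst hr
      have a1 : (1 : ℝ) ≤ s := by exact_mod_cast hs
      push_cast at hθ
      nlinarith [mul_le_mul_of_nonneg_right a1 hn.le]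
    · exfalso
      have a1 : (1 : ℝ) ≤ s := by exact_mod_cast hs
      have a2 : (0 : ℝ) < r := by exact_mod_cast hr
      nlinarith [mul_le_mul_of_nonneg_right a1 hn.le, mul_pos a2 hm]

/-- The data of the four minima. -/
theorem minima {t P a b : ℤ} (h : Par4 t P a b) {s : ℝ} (hs : s ^ 2 = (t : ℝ) ^ 2 + 4 * P)
    (hs0 : 0 < s) :
    ∃ α α' A A' B B' E E' : ℝ, α = (t + s) / 2 ∧ α' = (t - s) / 2 ∧ A = a * α + 1 ∧
      A' = a * α' + 1 ∧ B = b * A + α ∧ B' = b * A' + α' ∧ E = a * B + A ∧ E' = a * B' + A' ∧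
      1 < α ∧ α < A ∧ A < B ∧ B < E ∧ 3 ≤ E ∧ α' < 0 ∧ 0 < A' ∧ B' < 0 ∧ 0 < E' ∧
      α * α' = -P ∧ A * A' = 1 + a * t - a ^ 2 * P ∧ B * B' = -P ∧ E * E' = 1 := by
  obtain ⟨ht, hP, ha, hb, hQ, hc⟩ := h
  have htr : (1 : ℝ) ≤ t := by exact_mod_cast ht
  have hPr : (1 : ℝ) < P := by exact_mod_cast hP
  have har : (1 : ℝ) ≤ a := by exact_mod_cast ha
  have hbr : (1 : ℝ) ≤ b := by exact_mod_cast hb
  have hQr : (1 : ℝ) < 1 + a * t - a ^ 2 * P := by exact_mod_cast hQ
  have hcr : (b : ℝ) * (1 + a * t - a ^ 2 * P) = 2 * a * P - t := by exact_mod_cast hc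
  obtain ⟨α, hα⟩ : ∃ α : ℝ, α = (t + s) / 2 := ⟨_, rfl⟩
  obtain ⟨α', hα'⟩ : ∃ α : ℝ, α = (t - s) / 2 := ⟨_, rfl⟩
  obtain ⟨A, hA⟩ : ∃ x : ℝ, x = a * α + 1 := ⟨_, rfl⟩
  obtain ⟨A', hA'⟩ : ∃ x : ℝ, x = a * α' + 1 := ⟨_, rfl⟩
  obtain ⟨B, hB⟩ : ∃ x : ℝ, x = b * A + α := ⟨_, rfl⟩
  obtain ⟨B', hB'⟩ : ∃ x : ℝ, x = b * A' + α' := ⟨_, rfl⟩
  obtain ⟨E, hE⟩ : ∃ x : ℝ, x = a * B + A := ⟨_, rfl⟩
  obtain ⟨E', hE'⟩ : ∃ x : ℝ, x = a * B' + A' := ⟨_, rfl⟩
  have n1 : α * α' = -P := by rw [hα, hα']; linear_combination (-1 / 4) * hs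
  have tr : α + α' = t := by rw [hα, hα']; ring
  have n2 : A * A' = 1 + a * t - a ^ 2 * P := by
    rw [hA, hA']; linear_combination (a : ℝ) ^ 2 * n1 + a * tr
  have tr2 : A * α' + A' * α = t - 2 * a * P := by
    rw [hA, hA']; linear_combination 2 * (a : ℝ) * n1 + tr
  have n3 : B * B' = -P := by
    rw [hB, hB']
    linear_combination (b : ℝ) ^ 2 * n2 + b * tr2 + n1 + b * hcr
  have tr3 : B * A' + B' * A = b * (1 + a * t - a ^ 2 * P) := by
    rw [hB, hB']
    linear_combination 2 * (b : ℝ) * n2 + tr2 + hcr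
  have n4 : E * E' = 1 := by
    rw [hE, hE']
    linear_combination (a : ℝ) ^ 2 * n3 + a * tr3 + n2 + a * hcr
  have hst : (t : ℝ) < s := by nlinarith
  have hs1 : 1 < s := by linarith
  have p1 : 1 < α := by rw [hα]; linarith
  have q1 : α' < 0 := by rw [hα']; linarith
  have p2 : α < A := by rw [hA]; nlinarith
  have q2 : 0 < A' := by
    by_contra hcon
    push Not at hcon
    nlinarith
  have p3 : A < B := by rw [hB]; nlinarith
  have q3 : B' < 0 := by
    by_contra hcon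
    push Not at hcon
    nlinarith
  have p4 : B < E := by rw [hE]; nlinarith
  have q4 : 0 < E' := by
    by_contra hcon
    push Not at hcon
    nlinarith
  refine ⟨α, α', A, A', B, B', E, E', hα, hα', hA, hA', hB, hB', hE, hE', p1, p2, p3, p4, ?_,
    q1, q2, q3, q4, n1, n2, n3, n4⟩
  have : B + A ≤ E := by rw [hE]; nlinarith
  have : A + α ≤ B := by rw [hB]; nlinarith
  have : α + 1 ≤ A := by rw [hA]; nlinarith
  linarith

/-- Every unit above one is at least the fourth minimum. -/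
theorem unit_ge {t P a b : ℤ} (h : Par4 t P a b) (_ht : t % 2 = 1) {s : ℝ}
    (hs : s ^ 2 = (t : ℝ) ^ 2 + 4 * P) (hs0 : 0 < s) {T U : ℤ}
    (hu : T ^ 2 - (t ^ 2 + 4 * P) * U ^ 2 = 4 ∨ T ^ 2 - (t ^ 2 + 4 * P) * U ^ 2 = -4)
    (h1 : 1 < ((T : ℝ) + U * s) / 2) :
    ((2 * (a * b + 1) + a * (a * b + 2) * t : ℤ) + (a * (a * b + 2) : ℤ) * s) / 2 ≤
      ((T : ℝ) + U * s) / 2 := by
  obtain ⟨α, α', A, A', B, B', E, E', hα, hα', hA, hA', hB, hB', hE, hE', p1, p2, p3, p4, p5,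
    q1, q2, q3, q4, n1, n2, n3, n4⟩ := minima h hs hs0
  obtain ⟨-, hP, -, -, hQ, -⟩ := h
  have hPr : (1 : ℝ) < P := by exact_mod_cast hP
  have hQr : (1 : ℝ) < 1 + a * t - a ^ 2 * P := by exact_mod_cast hQ
  have hEe : ((2 * (a * b + 1) + a * (a * b + 2) * t : ℤ) + (a * (a * b + 2) : ℤ) * s) / 2 = E := by
    rw [hE, hB, hA, hα]; push_cast; ring
  rw [hEe]
  -- the coordinates of the unit
  obtain ⟨x, hx⟩ : ∃ x : ℤ, T = 2 * x + t * U := by
    refine ⟨(T - t * U) / 2, ?_⟩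
    have h2 : (T - t * U) % 2 = 0 := by
      have h3 : (T ^ 2 - (t ^ 2 + 4 * P) * U ^ 2) % 2 = 0 := by omega
      have h4 : (T - t * U) * (T - t * U) % 2 = 0 := by
        have e : (T - t * U) * (T - t * U) =
            (T ^ 2 - (t ^ 2 + 4 * P) * U ^ 2) + 2 * (t ^ 2 * U ^ 2 + 2 * P * U ^ 2 - t * U * T) := by
          ring
        rw [e]; omega
      rcases Int.even_or_odd (T - t * U) with h5 | h5
      · exact Int.even_iff.mp h5
      · exfalso
        have h6 := Int.odd_iff.mp (h5.mul h5)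
        omega
    omega
  obtain ⟨θ, hθ⟩ : ∃ θ : ℝ, θ = ((T : ℝ) + U * s) / 2 := ⟨_, rfl⟩
  obtain ⟨θ', hθ'⟩ : ∃ θ : ℝ, θ = ((T : ℝ) - U * s) / 2 := ⟨_, rfl⟩
  rw [← hθ] at h1 ⊢
  have hxr : (T : ℝ) = 2 * x + t * U := by exact_mod_cast hx
  have c1 : θ = x + U * α := by rw [hθ, hα, hxr]; ring
  have c2 : θ' = x + U * α' := by rw [hθ', hα', hxr]; ring
  have hun : |θ * θ'| = 1 := by
    have e : θ * θ' = ((T ^ 2 - (t ^ 2 + 4 * P) * U ^ 2 : ℤ) : ℝ) / 4 := by
      rw [hθ, hθ']; push_cast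
      linear_combination (-(U : ℝ) ^ 2 / 4) * hs
    rcases hu with h | h
    · rw [e, h]; norm_num
    · rw [e, h]; norm_num
  by_contra hcon
  push Not at hcon
  rcases lt_or_ge θ α with g1 | g1
  · obtain ⟨-, k⟩ := no_unit (m := 1) (n := α) (m' := 1) (n' := α') (r := x) (s := U)
      (by rw [c1]; ring) (by rw [c2]; ring) (by norm_num) (by linarith) (by linarith) h1.le g1
      (by norm_num) hun
    linarith
  rcases lt_or_ge θ A with g2 | g2
  · obtain ⟨k, -⟩ := no_unit (m := α) (n := A) (m' := α') (n' := A') (r := U - a * x) (s := x)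
      (by rw [c1, hA]; push_cast; ring) (by rw [c2, hA']; push_cast; ring) (by linarith)
      (by linarith) (mul_neg_of_neg_of_pos q1 q2) g1 g2
      (by rw [n1, abs_neg, abs_of_pos (by linarith)]; linarith) hun
    rw [n1, abs_neg, abs_of_pos (by linarith)] at k
    linarith
  rcases lt_or_ge θ B with g3 | g3
  · obtain ⟨k, -⟩ := no_unit (m := A) (n := B) (m' := A') (n' := B')
      (r := x * (1 + a * b) - U * b) (s := U - a * x)
      (by rw [c1, hB, hA]; push_cast; ring) (by rw [c2, hB', hA']; push_cast; ring) (by linarith)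
      (by linarith) (mul_neg_of_pos_of_neg q2 q3) g2 g3
      (by rw [n2, abs_of_pos (by linarith)]; linarith) hun
    rw [n2, abs_of_pos (by linarith)] at k
    linarith
  · obtain ⟨k, -⟩ := no_unit (m := B) (n := E) (m' := B') (n' := E')
      (r := U - a * x - a * (x * (1 + a * b) - U * b)) (s := x * (1 + a * b) - U * b)
      (by rw [c1, hE, hB, hA]; push_cast; ring) (by rw [c2, hE', hB', hA']; push_cast; ring)
      (by linarith) (by linarith) (mul_neg_of_neg_of_pos q3 q4) g3 hcon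
      (by rw [n3, abs_neg, abs_of_pos (by linarith)]; linarith) hun
    rw [n3, abs_neg, abs_of_pos (by linarith)] at k
    linarith

end Pool.Agent.N367.EP
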