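import Pool.Agent.N367.EP.U1

/-! If `a` is even then all units of the order of discriminant `t ^ 2 + 4 P` with period four have
an even second coordinate. -/

namespace Pool.Agent.N367.EP

open Pool.Agent.N156.EP
open Pool.Agent.N911 (nextQ)

/-- The unit of the period: norm one. -/
theorem unit_norm {t P a b : ℤ} (h : Par4 t P a b) :
    (2 * (a * b + 1) + a * (a * b + 2) * t) ^ 2 - (t ^ 2 + 4 * P) * (a * (a * b + 2)) ^ 2 = 4 := by
  obtain ⟨-, -, -, -, -, hc⟩ := h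
  linear_combination (4 * a * (a * b + 2)) * hc

theorem unit_descent {t P a b : ℤ} (h : Par4 t P a b) (ht : t % 2 = 1) (ha : a % 2 = 0) {s : ℝ}
    (hs : s ^ 2 = (t : ℝ) ^ 2 + 4 * P) (hs0 : 0 < s) :
    ∀ n : ℕ, ∀ T U : ℤ, 0 < T → 0 < U → U ≤ n →
      (T ^ 2 - (t ^ 2 + 4 * P) * U ^ 2 = 4 ∨ T ^ 2 - (t ^ 2 + 4 * P) * U ^ 2 = -4) → U % 2 = 0 := by
  have hn := unit_norm h
  have h0 := h
  obtain ⟨ht0, hP, ha0, hb, hQ, hc⟩ := h
  obtain ⟨T0, hT0⟩ : ∃ T0 : ℤ, T0 = 2 * (a * b + 1) + a * (a * b + 2) * t := ⟨_, rfl⟩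
  obtain ⟨U0, hU0⟩ : ∃ U0 : ℤ, U0 = a * (a * b + 2) := ⟨_, rfl⟩
  rw [← hT0, ← hU0] at hn
  obtain ⟨a', ha'⟩ : ∃ a' : ℤ, a = 2 * a' := ⟨a / 2, by omega⟩
  -- `U0 = 4 u`, `T0 = 2 v` with `v` odd
  obtain ⟨u, hu⟩ : ∃ u : ℤ, U0 = 4 * u := ⟨a' * (a' * b + 1), by rw [hU0, ha']; ring⟩
  obtain ⟨v, hv, hvo⟩ : ∃ v : ℤ, T0 = 2 * v ∧ v % 2 = 1 := by
    refine ⟨2 * (a' * b) + 1 + 2 * (a' * (a' * b + 1) * t), ?_, by omega⟩
    rw [hT0, ha']; ring
  have hnr : v ^ 2 - (t ^ 2 + 4 * P) * (2 * u) ^ 2 = 1 := by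
    rw [hv, hu] at hn
    linarith [hn]
  have hP1 : (1 : ℝ) < P := by exact_mod_cast hP
  have htr : (1 : ℝ) ≤ t := by exact_mod_cast ht0
  have hst : (t : ℝ) < s := by nlinarith
  have hs1 : 1 < s := by linarith
  have hupos : 0 < u := by
    have : 0 < a * (a * b + 2) := by positivity
    omega
  have hvpos : 0 < v := by
    have : 0 < 2 * (a * b + 1) + a * (a * b + 2) * t := by positivity
    omega
  have hur : (0 : ℝ) < u := by exact_mod_cast hupos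
  have hvr : (0 : ℝ) < v := by exact_mod_cast hvpos
  have hnrr : (v : ℝ) ^ 2 - s ^ 2 * (2 * u) ^ 2 = 1 := by
    rw [hs]; exact_mod_cast hnr
  intro n
  induction n with
  | zero => intro T U _ hU hle; exfalso; push_cast at hle; omega
  | succ n ih =>
    intro T U hT hU hle hun
    have hTr : (1 : ℝ) ≤ T := by exact_mod_cast hT
    have hUr : (1 : ℝ) ≤ U := by exact_mod_cast hU
    have h1 : 1 < ((T : ℝ) + U * s) / 2 := by nlinarith
    have hge := unit_ge h0 ht hs hs0 hun h1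
    have e1 : ((2 * (a * b + 1) + a * (a * b + 2) * t : ℤ) + (a * (a * b + 2) : ℤ) * s) / 2 =
        (v : ℝ) + 2 * u * s := by
      rw [← hT0, ← hU0, hv, hu]; push_cast; ring
    rw [e1] at hge
    -- the smaller unit
    obtain ⟨T1, hT1⟩ : ∃ T1 : ℤ, T1 = T * v - (t ^ 2 + 4 * P) * U * (2 * u) := ⟨_, rfl⟩
    obtain ⟨U1, hU1⟩ : ∃ U1 : ℤ, U1 = U * v - T * (2 * u) := ⟨_, rfl⟩
    have hpar : U1 % 2 = U % 2 := by
      have e : U1 = U + 2 * (U * ((v - 1) / 2) - T * u) := by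
        have hv2 : v = 1 + 2 * ((v - 1) / 2) := by omega
        rw [hU1]
        nth_rewrite 1 [hv2]
        ring
      omega
    have hn1 : T1 ^ 2 - (t ^ 2 + 4 * P) * U1 ^ 2 = T ^ 2 - (t ^ 2 + 4 * P) * U ^ 2 := by
      rw [hT1, hU1]
      linear_combination (T ^ 2 - (t ^ 2 + 4 * P) * U ^ 2) * hnr
    -- real sizes
    obtain ⟨θ, hθ⟩ : ∃ θ : ℝ, θ = ((T : ℝ) + U * s) / 2 := ⟨_, rfl⟩
    obtain ⟨θ', hθ'⟩ : ∃ θ : ℝ, θ = ((T : ℝ) - U * s) / 2 := ⟨_, rfl⟩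
    obtain ⟨η, hη⟩ : ∃ θ : ℝ, θ = (v : ℝ) + 2 * u * s := ⟨_, rfl⟩
    obtain ⟨η', hη'⟩ : ∃ θ : ℝ, θ = (v : ℝ) - 2 * u * s := ⟨_, rfl⟩
    obtain ⟨ρ, hρ⟩ : ∃ θ : ℝ, θ = ((T1 : ℝ) + U1 * s) / 2 := ⟨_, rfl⟩
    obtain ⟨ρ', hρ'⟩ : ∃ θ : ℝ, θ = ((T1 : ℝ) - U1 * s) / 2 := ⟨_, rfl⟩
    rw [← hθ, ← hη] at hge
    have hηη : η * η' = 1 := by rw [hη, hη']; linear_combination hnrr
    have hη3 : 3 ≤ η := by
      have : (1 : ℝ) ≤ v := by exact_mod_cast hvpos
      have : (1 : ℝ) ≤ u := by exact_mod_cast hupos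
      rw [hη]; nlinarith
    have hη'0 : 0 < η' := by
      by_contra hcon
      push Not at hcon
      nlinarith
    have c1 : ρ = θ * η' := by
      rw [hρ, hθ, hη', hT1, hU1]; push_cast
      linear_combination (U : ℝ) * u * hs
    have c2 : ρ' = θ' * η := by
      rw [hρ', hθ', hη, hT1, hU1]; push_cast
      linear_combination (U : ℝ) * u * hs
    have hρ1 : 1 ≤ ρ := by
      rw [c1]
      calc (1 : ℝ) = η * η' := hηη.symm
        _ ≤ θ * η' := mul_le_mul_of_nonneg_right hge hη'0.le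
    have hθρ : θ = ρ * η := by
      rw [c1]; linear_combination (-θ) * hηη
    have hNρ : |ρ * ρ'| = 1 := by
      have e : ρ * ρ' = ((T1 ^ 2 - (t ^ 2 + 4 * P) * U1 ^ 2 : ℤ) : ℝ) / 4 := by
        rw [hρ, hρ']; push_cast
        linear_combination (-(U1 : ℝ) ^ 2 / 4) * hs
      rw [e, hn1]
      rcases hun with h | h
      · rw [h]; norm_num
      · rw [h]; norm_num
    have hρ'1 : |ρ'| ≤ 1 := by
      rw [abs_mul, abs_of_pos (by linarith)] at hNρ
      nlinarith [abs_nonneg ρ']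
    have hθ'1 : |θ'| ≤ 1 := by
      have e : ρ' * η' = θ' := by rw [c2]; linear_combination θ' * hηη
      rw [← e, abs_mul, abs_of_pos hη'0]
      have : η' ≤ 1 := by nlinarith
      nlinarith [abs_nonneg ρ']
    obtain ⟨l1, l2⟩ := abs_le.mp hρ'1
    obtain ⟨l3, l4⟩ := abs_le.mp hθ'1
    have hU1s : (U1 : ℝ) * s = ρ - ρ' := by rw [hρ, hρ']; ring
    have hUs : (U : ℝ) * s = θ - θ' := by rw [hθ, hθ']; ring
    by_contra hodd
    have hodd1 : U1 % 2 = 1 := by omega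
    have hU1pos : 0 < U1 := by
      have h2 : (0 : ℝ) ≤ U1 := by
        by_contra hcon
        push Not at hcon
        nlinarith
      have h3 : 0 ≤ U1 := by exact_mod_cast h2
      omega
    have hU1lt : U1 < U := by
      have h2 : (U1 : ℝ) < U := by
        by_contra hcon
        push Not at hcon
        have h4 : (U : ℝ) * s ≤ U1 * s := mul_le_mul_of_nonneg_right hcon hs0.le
        rw [hU1s, hUs, hθρ] at h4
        nlinarith
      exact_mod_cast h2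
    have hT1pos : 0 < T1 := by
      have hU1r : (1 : ℝ) ≤ U1 := by exact_mod_cast hU1pos
      have e : (T1 : ℝ) = ρ + ρ' := by rw [hρ, hρ']; ring
      have h2 : (0 : ℝ) ≤ T1 := by rw [e]; linarith
      have h3 : 0 ≤ T1 := by exact_mod_cast h2
      rcases h3.eq_or_lt with h4 | h4
      · exfalso
        rw [← h4] at hn1
        have h5 : (t ^ 2 + 4 * P) * U1 ^ 2 = 4 ∨ (t ^ 2 + 4 * P) * U1 ^ 2 = -4 := by
          rcases hun with h | h <;> [right; left] <;> linarith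
        have h6 : ((t ^ 2 + 4 * P) * U1 ^ 2) % 2 = 1 := by
          have h7 : (t ^ 2 + 4 * P) % 2 = 1 := by
            have := Int.odd_iff.mp ((Int.odd_iff.mpr ht).pow (n := 2))
            omega
          have h8 := Int.odd_iff.mp ((Int.odd_iff.mpr hodd1).pow (n := 2))
          exact Int.odd_iff.mp ((Int.odd_iff.mpr h7).mul (Int.odd_iff.mpr h8))
        omega
      · exact h4
    have := ih T1 U1 hT1pos hU1pos (by push_cast at hle; omega) (by rw [hn1]; exact hun)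
    omega

/-- A unit outside `ℤ[√d]` makes the first partial quotient of the period odd. -/
theorem odd_of_unit {d : ℕ} (hsf : Squarefree d) (hd1 : 1 < d) (h4 : d % 4 = 1)
    (hper : perLen d = 2 ∨ perLen d = 4) {T U : ℤ} (hU : Odd U)
    (hu : T ^ 2 - d * U ^ 2 = 4 ∨ T ^ 2 - d * U ^ 2 = -4) : Odd ⌊nextQ (omega d)⌋ := by
  obtain ⟨t, P, b, ht, hodd, hD, hP, ha, hc⟩ := params hsf hd1 h4 hper
  rcases hc with ⟨_, hc, _⟩ | ⟨_, hc⟩
  · rw [Int.odd_iff]
    by_contra h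
    have h1 : ⌊nextQ (omega d)⌋ % 2 = 0 := by omega
    have h2 : (⌊nextQ (omega d)⌋ * P) % 2 = 0 := by
      rw [Int.mul_emod, h1]; simp
    omega
  · rw [Int.odd_iff]
    by_contra h
    have h1 : ⌊nextQ (omega d)⌋ % 2 = 0 := by omega
    have hdr : ((d : ℤ) : ℝ) = ((t ^ 2 + 4 * P : ℤ) : ℝ) := by rw [hD]
    push_cast at hdr
    have hs : √(d : ℝ) ^ 2 = (t : ℝ) ^ 2 + 4 * P := by
      rw [Real.sq_sqrt (by positivity)]
      exact hdr
    have hs0 : 0 < √(d : ℝ) := Real.sqrt_pos.mpr (by exact_mod_cast (by omega : 0 < d))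
    have hT : T ≠ 0 := by
      rintro rfl
      have h6 : ((d : ℤ) * U ^ 2) % 2 = 1 := by
        have h7 : (d : ℤ) % 2 = 1 := by omega
        have h8 := Int.odd_iff.mp (hU.pow (n := 2))
        exact Int.odd_iff.mp ((Int.odd_iff.mpr h7).mul (Int.odd_iff.mpr h8))
      omega
    have hU0 : U ≠ 0 := by rintro rfl; simp at hU
    have := unit_descent hc hodd h1 hs hs0 U.natAbs |T| |U| (abs_pos.mpr hT) (abs_pos.mpr hU0)
      (by simp) (by rw [sq_abs, sq_abs, ← hD]; exact hu)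
    have h9 := Int.odd_iff.mp (odd_abs.mpr hU)
    omega

/-- Conversely, if the first partial quotient is odd, there is a unit outside `ℤ[√d]`. -/
theorem unit_of_odd {d : ℕ} (hsf : Squarefree d) (hd1 : 1 < d) (h4 : d % 4 = 1)
    (hper : perLen d = 2 ∨ perLen d = 4) (ha : Odd ⌊nextQ (omega d)⌋) :
    ∃ T U : ℤ, Odd U ∧ T ^ 2 - d * U ^ 2 = 4 := by
  obtain ⟨t, P, b, ht, hodd, hD, hP, ha0, hc⟩ := params hsf hd1 h4 hper
  rcases hc with ⟨_, hc, _⟩ | ⟨_, hc⟩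
  · obtain ⟨a, hae⟩ : ∃ a : ℤ, a = ⌊nextQ (omega d)⌋ := ⟨_, rfl⟩
    rw [← hae] at hc ha
    refine ⟨2 + a * t, a, ha, ?_⟩
    rw [hD]
    linear_combination (4 * a) * hc
  · have hb : Odd b := by
      obtain ⟨-, -, -, -, -, hcc⟩ := hc
      by_contra h
      rw [Int.not_odd_iff_even] at h
      have h1 : Even (2 * ⌊nextQ (omega d)⌋ * P - t) := by rw [← hcc]; exact h.mul_right _
      obtain ⟨k, hk⟩ := h1
      have : t = 2 * (⌊nextQ (omega d)⌋ * P) - (k + k) := by linarith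
      omega
    refine ⟨_, _, ?_, by rw [hD]; exact unit_norm hc⟩
    exact ha.mul ((ha.mul hb).add_even ⟨1, rfl⟩)

end Pool.Agent.N367.EP
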